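import Pool.Agent.Helper91.LC.Defs
import Pool.Agent.Helper91.LC.R.Bonk
import Pool.Agent.Helper91.LC.R.Growth

/-!
# Project LC, piece LC-4b: the local inverse on the disc of radius `√3 / 4`
-/

set_option autoImplicit false

namespace Pool.Agent.Helper91.LC.R8ExistsInv

open Complex Metric Set Filter Topology
open Pool.Agent.Helper91.LC
open Pool.Agent.Helper91.LC.Spec (bonk growth)

lemma sqrt3_facts : 0 < √3 ∧ √3 * √3 = 3 ∧ 1 < √3 := by
  refine ⟨Real.sqrt_pos.2 (by norm_num), Real.mul_self_sqrt (by norm_num), ?_⟩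
  rw [show (1 : ℝ) = √1 by simp]
  exact Real.sqrt_lt_sqrt (by norm_num) (by norm_num)

lemma inv_sqrt3_lt_one : 1 / √3 < 1 := by
  obtain ⟨h1, h2, h3⟩ := sqrt3_facts
  rw [div_lt_one h1]
  exact h3

lemma re_deriv_pos {F : ℂ → ℂ} (hG : Good F) {z : ℂ} (hz : ‖z‖ < 1 / √3) :
    0 < (deriv F z).re := by
  obtain ⟨h1, h2, h3⟩ := sqrt3_facts
  refine lt_of_lt_of_le ?_ (bonk hG hz)
  have h4 : √3 * ‖z‖ < 1 := by
    rw [lt_div_iff₀ h1] at hz
    linarith
  have h5 : ‖z‖ / √3 < 1 := by
    rw [div_lt_one h1]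
    have : 1 / √3 < 1 := inv_sqrt3_lt_one
    linarith
  exact div_pos (by linarith) (pow_pos (by linarith) 3)

lemma differentiableAt {F : ℂ → ℂ} (hG : Good F) {z : ℂ} (hz : ‖z‖ < 1) :
    DifferentiableAt ℂ F z :=
  (hG.diff z (by simpa using hz)).differentiableAt (isOpen_ball.mem_nhds (by simpa using hz))

lemma hasStrictDerivAt {F : ℂ → ℂ} (hG : Good F) {z : ℂ} (hz : ‖z‖ < 1) :
    HasStrictDerivAt F (deriv F z) z :=
  ((hG.diff.analyticAt (isOpen_ball.mem_nhds (by simpa using hz)))).hasStrictDerivAt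

lemma injOn {F : ℂ → ℂ} (hG : Good F) : InjOn F (ball 0 (1 / √3)) := by
  intro z hz w hw hzw
  by_contra hne
  have hd0 : w - z ≠ 0 := sub_ne_zero.2 (Ne.symm hne)
  -- the function `t ↦ Re (conj (w - z) * F (z + t (w - z)))`
  have hseg : ∀ t ∈ Icc (0 : ℝ) 1, z + t * (w - z) ∈ ball (0 : ℂ) (1 / √3) := by
    intro t ht
    have h1 := (convex_ball (0 : ℂ) (1 / √3)) hz hw (sub_nonneg.2 ht.2) ht.1 (by ring)
    have e1 : z + t * (w - z) = (1 - t) • z + t • w := by
      simp only [Complex.real_smul]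
      push_cast
      ring
    rw [e1]
    exact h1
  have hder : ∀ t ∈ Icc (0 : ℝ) 1, HasDerivAt
      (fun t : ℝ => ((starRingEnd ℂ) (w - z) * F (z + t * (w - z))).re)
      (((starRingEnd ℂ) (w - z) * (deriv F (z + t * (w - z)) * (w - z))).re) t := by
    intro t ht
    have h1 := hseg t ht
    have h2 : ‖z + t * (w - z)‖ < 1 := by
      have := inv_sqrt3_lt_one
      have h3 : ‖z + t * (w - z)‖ < 1 / √3 := by simpa using h1
      linarith
    have h3 : HasDerivAt F (deriv F (z + t * (w - z))) (z + t * (w - z)) :=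
      (differentiableAt hG h2).hasDerivAt
    have h4 : HasDerivAt (fun s : ℂ => z + s * (w - z)) (w - z) (t : ℂ) := by
      simpa using ((hasDerivAt_id (t : ℂ)).mul_const (w - z)).const_add z
    have h5 : HasDerivAt (fun s : ℂ => F (z + s * (w - z)))
        (deriv F (z + t * (w - z)) * (w - z)) (t : ℂ) := HasDerivAt.comp (t : ℂ) h3 h4
    have h6 := (h5.const_mul ((starRingEnd ℂ) (w - z))).real_of_complex
    exact h6
  have hpos : ∀ t ∈ Icc (0 : ℝ) 1,
      0 < (((starRingEnd ℂ) (w - z) * (deriv F (z + t * (w - z)) * (w - z))).re) := by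
    intro t ht
    have h1 : (starRingEnd ℂ) (w - z) * (deriv F (z + t * (w - z)) * (w - z)) =
        (((Complex.normSq (w - z) : ℝ)) : ℂ) * deriv F (z + t * (w - z)) := by
      rw [Complex.normSq_eq_conj_mul_self]; ring
    rw [h1, Complex.re_ofReal_mul]
    apply mul_pos (Complex.normSq_pos.2 hd0)
    apply re_deriv_pos hG
    simpa using hseg t ht
  have hmono : StrictMonoOn (fun t : ℝ => ((starRingEnd ℂ) (w - z) * F (z + t * (w - z))).re)
      (Icc (0 : ℝ) 1) := by
    apply strictMonoOn_of_deriv_pos (convex_Icc 0 1)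
    · intro t ht
      exact (hder t ht).continuousAt.continuousWithinAt
    · intro t ht
      rw [interior_Icc] at ht
      have ht' : t ∈ Icc (0 : ℝ) 1 := ⟨ht.1.le, ht.2.le⟩
      rw [(hder t ht').deriv]
      exact hpos t ht'
  have h7 := hmono (left_mem_Icc.2 zero_le_one) (right_mem_Icc.2 zero_le_one) zero_lt_one
  simp only [ofReal_zero, zero_mul, add_zero, ofReal_one, one_mul, add_sub_cancel] at h7
  rw [hzw] at h7
  exact lt_irrefl _ h7

/-- the lower bound on the boundary circle -/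
lemma norm_ge_boundary {F : ℂ → ℂ} (hG : Good F) {z : ℂ} (hz : ‖z‖ = 1 / √3) :
    √3 / 4 ≤ ‖F z‖ := by
  obtain ⟨h1, h2, h3⟩ := sqrt3_facts
  have hz1 : ‖z‖ < 1 := by rw [hz]; exact inv_sqrt3_lt_one
  have hz0 : 0 < ‖z‖ := by rw [hz]; positivity
  -- left hand side as a function of `t`
  have hc1 : ContinuousAt (fun t : ℝ =>
      (t * ‖z‖) * (1 - 2 * (t * ‖z‖) / √3) / (1 - (t * ‖z‖) / √3) ^ 2) 1 := by
    apply ContinuousAt.div
    · fun_prop
    · fun_prop
    · apply pow_ne_zero
      rw [one_mul, hz, div_div, h2]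
      norm_num
  have hc2 : ContinuousAt (fun t : ℝ => ‖F (t * z)‖) 1 := by
    apply ContinuousAt.norm
    have h4 : ContinuousAt F (((1 : ℝ) : ℂ) * z) := by
      apply (differentiableAt hG _).continuousAt
      simpa using hz1
    exact ContinuousAt.comp (f := fun t : ℝ => (t : ℂ) * z) h4 (by fun_prop)
  have hev : ∀ᶠ t : ℝ in 𝓝[<] (1 : ℝ),
      (t * ‖z‖) * (1 - 2 * (t * ‖z‖) / √3) / (1 - (t * ‖z‖) / √3) ^ 2 ≤ ‖F (t * z)‖ := by
    have h5 : ∀ᶠ t : ℝ in 𝓝[<] (1 : ℝ), 0 < t :=
      nhdsWithin_le_nhds (lt_mem_nhds (by norm_num))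
    filter_upwards [h5, self_mem_nhdsWithin] with t ht0 ht1
    have ht1 : t < 1 := ht1
    have h6 : ‖(t : ℂ) * z‖ = t * ‖z‖ := by
      rw [norm_mul, Complex.norm_real, Real.norm_of_nonneg ht0.le]
    have h7 : ‖(t : ℂ) * z‖ < 1 / √3 := by
      rw [h6, ← hz]
      nlinarith
    have h8 := growth hG h7
    rw [h6] at h8
    exact h8
  have h9 := le_of_tendsto_of_tendsto (hc1.tendsto.mono_left nhdsWithin_le_nhds)
    (hc2.tendsto.mono_left nhdsWithin_le_nhds) hev
  simp only [one_mul, ofReal_one] at h9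
  refine le_trans (le_of_eq ?_) h9
  rw [hz, div_div, h2]
  have e1 : 2 * (1 / √3) / √3 = 2 / 3 := by
    rw [mul_one_div, div_div, h2]
  rw [e1]
  field_simp
  nlinarith

/-- LC-4b -/
theorem exists_inv {F : ℂ → ℂ} (hG : Good F) : ∃ f : ℂ → ℂ, Inv F f := by
  obtain ⟨h1, h2, h3⟩ := sqrt3_facts
  set U : Set ℂ := ball 0 (1 / √3) with hU
  have hinj : InjOn F U := injOn hG
  have hU1 : ∀ z ∈ U, ‖z‖ < 1 := by
    intro z hz
    have h4 : ‖z‖ < 1 / √3 := by simpa [hU] using hz
    have := inv_sqrt3_lt_one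
    linarith
  have hne : ∀ z ∈ U, deriv F z ≠ 0 := by
    intro z hz h0
    have h4 : ‖z‖ < 1 / √3 := by simpa [hU] using hz
    have h5 := re_deriv_pos hG h4
    rw [h0] at h5
    simp at h5
  have hstrict : ∀ z ∈ U, HasStrictDerivAt F (deriv F z) z := fun z hz =>
    hasStrictDerivAt hG (hU1 z hz)
  -- the image is open
  have hopen : IsOpen (F '' U) := by
    rw [isOpen_iff_mem_nhds]
    rintro _ ⟨z, hz, rfl⟩
    rw [← (hstrict z hz).map_nhds_eq (hne z hz)]
    exact image_mem_map (isOpen_ball.mem_nhds hz)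
  have h0U : (0 : ℂ) ∈ U := by
    simp only [hU, mem_ball, dist_self]
    positivity
  -- the image contains the disc
  have hsub : ball (0 : ℂ) (√3 / 4) ⊆ F '' U := by
    apply (convex_ball (0 : ℂ) (√3 / 4)).isPreconnected.subset_of_closure_inter_subset hopen
    · refine ⟨0, ?_, ⟨0, h0U, hG.zero⟩⟩
      simp only [mem_ball, dist_self]
      positivity
    · rintro w ⟨hw, hwB⟩
      have hcont : ContinuousOn F (closedBall 0 (1 / √3)) := by
        intro z hz
        have h4 : ‖z‖ ≤ 1 / √3 := by simpa using hz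
        have h5 := inv_sqrt3_lt_one
        exact (differentiableAt hG (lt_of_le_of_lt h4 h5)).continuousAt.continuousWithinAt
      have hK : IsClosed (F '' closedBall 0 (1 / √3)) :=
        ((isCompact_closedBall _ _).image_of_continuousOn hcont).isClosed
      have hw' : w ∈ F '' closedBall 0 (1 / √3) :=
        closure_minimal (image_mono ball_subset_closedBall) hK hw
      obtain ⟨z, hz, rfl⟩ := hw'
      have h4 : ‖z‖ ≤ 1 / √3 := by simpa using hz
      rcases h4.lt_or_eq with h5 | h5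
      · exact ⟨z, by simpa [hU] using h5, rfl⟩
      · have h6 := norm_ge_boundary hG h5
        have h7 : ‖F z‖ < √3 / 4 := by simpa using hwB
        linarith
  have hright : ∀ v ∈ F '' U, Function.invFunOn F U v ∈ U ∧ F (Function.invFunOn F U v) = v := by
    intro v hv
    exact ⟨Function.invFunOn_mem hv, Function.invFunOn_eq hv⟩
  have hleft : ∀ z ∈ U, Function.invFunOn F U (F z) = z := by
    intro z hz
    obtain ⟨h4, h5⟩ := hright (F z) ⟨z, hz, rfl⟩
    exact hinj h4 hz h5
  refine ⟨Function.invFunOn F U, ?_, ?_, ?_, ?_⟩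
  · intro v hv
    obtain ⟨z, hz, rfl⟩ := hsub hv
    have h4 : HasStrictDerivAt (Function.invFunOn F U) (deriv F z)⁻¹ (F z) := by
      apply (hstrict z hz).to_local_left_inverse (hne z hz)
      filter_upwards [isOpen_ball.mem_nhds hz] with x hx
      exact hleft x hx
    exact h4.hasDerivAt.differentiableAt.differentiableWithinAt
  · have h4 := hleft 0 h0U
    rwa [hG.zero] at h4
  · intro v hv
    have h4 := (hright v (hsub hv)).1
    simpa [hU] using h4
  · intro v hv
    exact (hright v (hsub hv)).2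

end Pool.Agent.Helper91.LC.R8ExistsInv

namespace Pool.Agent.Helper91.LC.Spec

alias exists_inv := Pool.Agent.Helper91.LC.R8ExistsInv.exists_inv

end Pool.Agent.Helper91.LC.Spec
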