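import Pool.Agent.Helper33.LC.Coeffs

namespace Pool.Agent.Helper91.LC.Spec

alias coeffs := Pool.Agent.Helper33.LC.coeffs

end Pool.Agent.Helper91.LC.Spec
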