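import Pool.Agent.Helper91.LC.Defs
import Pool.Agent.Helper91.LC.R.Growth

/-!
# Project LC, piece LC-5a: bounds for the local inverse
-/

namespace Pool.Agent.Helper91.LC.R88FLe

open Complex Metric Set
open Pool.Agent.Helper91.LC

lemma div_r (x : ℝ) : x / √3 = x * √3 / 3 := by
  have h3 : √3 * √3 = 3 := Real.mul_self_sqrt (by norm_num)
  have h0 : √3 ≠ 0 := by positivity
  rw [div_eq_div_iff h0 (by norm_num), mul_assoc, h3]

/-- the growth function in rational form -/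
lemma m_eq {x : ℝ} (hx : x < 1 / √3) :
    x * (1 - 2 * x / √3) / (1 - x / √3) ^ 2 =
      x * (3 - 2 * x * √3) / (3 - 2 * x * √3 + x ^ 2) ∧ 0 < 3 - 2 * x * √3 + x ^ 2 := by
  have h3 : √3 * √3 = 3 := Real.mul_self_sqrt (by norm_num)
  have h0 : 0 < √3 := by positivity
  have hx3 : x * √3 < 1 := by rwa [lt_div_iff₀ h0] at hx
  have hd : (0 : ℝ) < 1 - x * √3 / 3 := by linarith
  have e1 : 3 - 2 * x * √3 + x ^ 2 = 3 * (1 - x * √3 / 3) ^ 2 := by nlinarith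
  have hp : 0 < 3 - 2 * x * √3 + x ^ 2 := by rw [e1]; positivity
  refine ⟨?_, hp⟩
  rw [div_r x, div_r (2 * x), div_eq_div_iff (by positivity) hp.ne', e1]
  ring

lemma m_lt {x y : ℝ} (hx0 : 0 ≤ x) (hxy : x < y) (hy : y < 1 / √3) :
    x * (1 - 2 * x / √3) / (1 - x / √3) ^ 2 < y * (1 - 2 * y / √3) / (1 - y / √3) ^ 2 := by
  have h3 : √3 * √3 = 3 := Real.mul_self_sqrt (by norm_num)
  have h0 : 0 < √3 := by positivity
  have hy3 : y * √3 < 1 := by rwa [lt_div_iff₀ h0] at hy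
  have hx3 : x * √3 < 1 := by nlinarith
  have hd : (0 : ℝ) < 1 - x * √3 / 3 := by linarith
  have hd' : (0 : ℝ) < 1 - y * √3 / 3 := by linarith
  rw [div_r x, div_r y, div_r (2 * x), div_r (2 * y), div_lt_div_iff₀ (by positivity)
    (by positivity)]
  have key : y * (1 - 2 * y * √3 / 3) * (1 - x * √3 / 3) ^ 2 -
      x * (1 - 2 * x * √3 / 3) * (1 - y * √3 / 3) ^ 2 =
      (y - x) * (((1 - x * √3) * (1 - y * √3) + (1 - x * √3) + (1 - y * √3)) / 3) := by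
    ring
  have hpos : 0 < (y - x) * (((1 - x * √3) * (1 - y * √3) + (1 - x * √3) + (1 - y * √3)) / 3) := by
    have h6 : 0 < 1 - x * √3 := by linarith
    have h7 : 0 < 1 - y * √3 := by linarith
    have h8 : 0 < y - x := by linarith
    positivity
  linarith

theorem f_le {F f : ℂ → ℂ} (hG : Good F) (hI : Inv F f) {x : ℝ} (hx0 : 0 ≤ x) (hx : x < 1 / √3)
    {v : ℂ} (hv : v ∈ ball (0 : ℂ) (√3 / 4))
    (hvx : ‖v‖ ≤ x * (1 - 2 * x / √3) / (1 - x / √3) ^ 2) : ‖f v‖ ≤ x := by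
  by_contra hcon
  have h1 := hI.lt v hv
  have h2 := Spec.growth hG h1
  rw [hI.eq v hv] at h2
  have h3 := m_lt hx0 (not_le.mp hcon) h1
  linarith

lemma sqrt3_lt : √3 < 1.7320509 := by
  rw [Real.sqrt_lt' (by norm_num)]
  norm_num

lemma lt_sqrt3 : 1.7320508 < √3 := by
  rw [Real.lt_sqrt (by norm_num)]
  norm_num

lemma f_le_num {F f : ℂ → ℂ} (hG : Good F) (hI : Inv F f) {x y : ℝ} (hx0 : 0 ≤ x)
    (hx : x * 1.7320509 < 1) (hy0 : 0 ≤ y) (hyx : y ≤ x)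
    (hxy : y * x ^ 2 ≤ (3 - 2 * x * 1.7320509) * (x - y)) (hy : y ≤ 0.4) {v : ℂ}
    (hv : ‖v‖ ≤ y) : ‖f v‖ ≤ x := by
  have ha := sqrt3_lt
  have hb := lt_sqrt3
  have h0 : 0 < √3 := by positivity
  have hx1 : x < 1 / √3 := by
    rw [lt_div_iff₀ h0]
    nlinarith
  refine f_le hG hI hx0 hx1 ?_ ?_
  · rw [mem_ball_zero_iff]
    have : (0.4 : ℝ) < √3 / 4 := by linarith
    linarith
  · obtain ⟨h1, h2⟩ := m_eq hx1
    rw [h1]
    refine hv.trans ?_
    rw [le_div_iff₀ h2]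
    have h3 : (3 - 2 * x * 1.7320509) * (x - y) ≤ (3 - 2 * x * √3) * (x - y) := by
      refine mul_le_mul_of_nonneg_right ?_ (by linarith)
      nlinarith
    nlinarith

theorem f_le_30 {F f : ℂ → ℂ} (hG : Good F) (hI : Inv F f) {v : ℂ} (hv : ‖v‖ ≤ 0.3) :
    ‖f v‖ ≤ 0.3158 :=
  f_le_num hG hI (by norm_num) (by norm_num) (by norm_num) (by norm_num) (by norm_num)
    (by norm_num) hv

theorem f_le_313 {F f : ℂ → ℂ} (hG : Good F) (hI : Inv F f) {v : ℂ} (hv : ‖v‖ ≤ 0.3128) :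
    ‖f v‖ ≤ 0.3314 :=
  f_le_num hG hI (by norm_num) (by norm_num) (by norm_num) (by norm_num) (by norm_num)
    (by norm_num) hv

theorem f_le_095 {F f : ℂ → ℂ} (hG : Good F) (hI : Inv F f) {v : ℂ} (hv : ‖v‖ ≤ 0.095) :
    ‖f v‖ ≤ 0.09533 :=
  f_le_num hG hI (by norm_num) (by norm_num) (by norm_num) (by norm_num) (by norm_num)
    (by norm_num) hv

theorem f_le_025 {F f : ℂ → ℂ} (hG : Good F) (hI : Inv F f) {v : ℂ} (hv : ‖v‖ ≤ 0.025) :
    ‖f v‖ ≤ 0.02502 :=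
  f_le_num hG hI (by norm_num) (by norm_num) (by norm_num) (by norm_num) (by norm_num)
    (by norm_num) hv

theorem f_le_013 {F f : ℂ → ℂ} (hG : Good F) (hI : Inv F f) {v : ℂ} (hv : ‖v‖ ≤ 0.0128) :
    ‖f v‖ ≤ 0.01281 :=
  f_le_num hG hI (by norm_num) (by norm_num) (by norm_num) (by norm_num) (by norm_num)
    (by norm_num) hv

end Pool.Agent.Helper91.LC.R88FLe

namespace Pool.Agent.Helper91.LC.Spec

alias f_le := Pool.Agent.Helper91.LC.R88FLe.f_le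

alias f_le_30 := Pool.Agent.Helper91.LC.R88FLe.f_le_30

alias f_le_313 := Pool.Agent.Helper91.LC.R88FLe.f_le_313

alias f_le_095 := Pool.Agent.Helper91.LC.R88FLe.f_le_095

alias f_le_025 := Pool.Agent.Helper91.LC.R88FLe.f_le_025

alias f_le_013 := Pool.Agent.Helper91.LC.R88FLe.f_le_013

end Pool.Agent.Helper91.LC.Spec
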