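import Pool.Agent.Helper91.LC.Defs
import Pool.Agent.Helper91.LC.R.Ahlfors

set_option autoImplicit false

/-!
# Project LC, piece LC-2: consequences of Ahlfors' theorem and the functions `psiS`, `aff`
-/

namespace Pool.Agent.Helper91.LC.R54Lower

open Complex Metric Set
open Pool.Agent.Helper91.LC

/-- The basic inequality behind everything: `ψ(y)` lies above the tangent line. -/
lemma psi_tangent {x y : ℝ} (hx : 0 ≤ x) (hy : 0 ≤ y) :
    x - Real.log (1 + x) + x / (2 * (1 + x)) * (1 - Real.exp (2 * (x - y))) ≤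
      y - Real.log (1 + y) := by
  have h1x : 0 < 1 + x := by linarith
  have h1y : 0 < 1 + y := by linarith
  have hlog : Real.log (1 + y) - Real.log (1 + x) ≤ (y - x) / (1 + x) := by
    rw [← Real.log_div h1y.ne' h1x.ne']
    refine (Real.log_le_sub_one_of_pos (div_pos h1y h1x)).trans (le_of_eq ?_)
    field_simp
    ring
  have hexp : 1 - Real.exp (2 * (x - y)) ≤ 2 * (y - x) := by
    have := Real.add_one_le_exp (2 * (x - y))
    linarith
  have hc : 0 ≤ x / (2 * (1 + x)) := by positivity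
  have h2 := mul_le_mul_of_nonneg_left hexp hc
  have h3 : x / (2 * (1 + x)) * (2 * (y - x)) = (y - x) - (y - x) / (1 + x) := by
    field_simp
    ring
  linarith

lemma psiS_of_lt {s : ℝ} (hs : s < 1) :
    psiS s = - Real.log s / 2 - Real.log (1 + (- Real.log s / 2)) := by
  unfold psiS
  rw [if_pos hs]
  congr 2
  ring

lemma psiS_of_ge {s : ℝ} (hs : 1 ≤ s) : psiS s = 0 := by
  unfold psiS
  rw [if_neg (not_lt.2 hs)]

theorem aff_le_psiS {x s : ℝ} (hx : 0 ≤ x) (hs : 0 < s) : aff x s ≤ psiS s := by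
  have h1x : 0 < 1 + x := by linarith
  rcases lt_or_ge s 1 with h | h
  · rw [psiS_of_lt h]
    have hy : 0 ≤ - Real.log s / 2 := by
      have := Real.log_nonpos hs.le h.le
      linarith
    have := psi_tangent hx hy
    unfold aff
    have he : Real.exp (2 * (x - - Real.log s / 2)) = Real.exp (2 * x) * s := by
      have : 2 * (x - - Real.log s / 2) = 2 * x + Real.log s := by ring
      rw [this, Real.exp_add, Real.exp_log hs]
    rw [he] at this
    exact this
  · rw [psiS_of_ge h]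
    have := psi_tangent hx (le_refl (0 : ℝ))
    unfold aff
    have hc : 0 ≤ x / (2 * (1 + x)) := by positivity
    have h2 : 1 - Real.exp (2 * x) * s ≤ 1 - Real.exp (2 * (x - 0)) := by
      rw [sub_zero]
      have := mul_le_mul_of_nonneg_left h (Real.exp_pos (2 * x)).le
      linarith
    have h3 := mul_le_mul_of_nonneg_left h2 hc
    have h4 : (0 : ℝ) - Real.log (1 + 0) = 0 := by simp
    rw [h4] at this
    linarith

theorem psiS_nonneg (s : ℝ) (hs : 0 < s) : 0 ≤ psiS s := by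
  have := aff_le_psiS (le_refl (0 : ℝ)) hs
  simpa [aff] using this

theorem psiS_anti {s t : ℝ} (hs : 0 < s) (hst : s ≤ t) : psiS t ≤ psiS s := by
  rcases lt_or_ge t 1 with h | h
  · have ht : 0 < t := hs.trans_le hst
    have hy : 0 ≤ - Real.log t / 2 := by
      have := Real.log_nonpos ht.le h.le
      linarith
    refine le_trans ?_ (aff_le_psiS hy hs)
    rw [psiS_of_lt h]
    unfold aff
    have he : Real.exp (2 * (- Real.log t / 2)) * s ≤ 1 := by
      have : 2 * (- Real.log t / 2) = - Real.log t := by ring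
      rw [this, Real.exp_neg, Real.exp_log ht, inv_mul_le_iff₀ ht, mul_one]
      exact hst
    have hc : 0 ≤ (- Real.log t / 2) / (2 * (1 + (- Real.log t / 2))) := by positivity
    have := mul_nonneg hc (sub_nonneg.2 he)
    linarith
  · rw [psiS_of_ge h]
    exact psiS_nonneg s hs

/-- Ahlfors' bound for `A F`. -/
lemma ahlfors_mul {F : ℂ → ℂ} {A : ℝ} {E : Set ℂ} (hG : Good F) (hA : 0 < A) (hC : Cov F A E)
    {z : ℂ} (hz : z ∈ ball (0 : ℂ) 1) :
    A * (‖deriv F z‖ * (1 - ‖z‖ ^ 2)) ≤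
      2 * infDist ((A : ℂ) * F z) E * (1 - Real.log (infDist ((A : ℂ) * F z) E)) := by
  have h := Spec.ahlfors (F := fun z => (A : ℂ) * F z) (hG.diff.const_mul (A : ℂ)) hC.clo hC.ne
    hC.cov hC.dis hz
  rw [deriv_const_mul_field, norm_mul, Complex.norm_real, Real.norm_eq_abs, abs_of_pos hA] at h
  calc A * (‖deriv F z‖ * (1 - ‖z‖ ^ 2)) = A * ‖deriv F z‖ * (1 - ‖z‖ ^ 2) := by ring
    _ ≤ _ := h

lemma infDist_pos_of {F : ℂ → ℂ} {A : ℝ} {E : Set ℂ} (hC : Cov F A E)
    {z : ℂ} (hz : z ∈ ball (0 : ℂ) 1) : 0 < infDist ((A : ℂ) * F z) E :=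
  (hC.clo.notMem_iff_infDist_pos hC.ne).1 (hC.dis z hz)

theorem lower {F : ℂ → ℂ} {A : ℝ} {E : Set ℂ} (hG : Good F) (hA : 0 < A) (hC : Cov F A E)
    {z : ℂ} (hz : z ∈ ball (0 : ℂ) 1) (hz' : deriv F z ≠ 0) {p : ℂ} (hp : p ∈ E) :
    psiS (‖(A : ℂ) * F z - p‖ ^ 2) ≤ Real.log (2 / A) + P F z := by
  have hd := infDist_pos_of hC hz
  have hd1 := hC.cov ((A : ℂ) * F z)
  have hah := ahlfors_mul hG hA hC hz
  have hdp : infDist ((A : ℂ) * F z) E ≤ ‖(A : ℂ) * F z - p‖ := by
    rw [← dist_eq_norm]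
    exact infDist_le_dist_of_mem hp
  generalize infDist ((A : ℂ) * F z) E = d at hd hd1 hah hdp
  have hz1 : ‖z‖ < 1 := by simpa using hz
  have hw : 0 < 1 - ‖z‖ ^ 2 := by nlinarith [norm_nonneg z]
  have hF : 0 < ‖deriv F z‖ * (1 - ‖z‖ ^ 2) := mul_pos (norm_pos_iff.2 hz') hw
  have hld : Real.log d ≤ 0 := Real.log_nonpos hd.le hd1
  have h1l : 0 < 1 - Real.log d := by linarith
  -- logarithms
  have hlog : Real.log A + Real.log (‖deriv F z‖ * (1 - ‖z‖ ^ 2)) ≤
      Real.log 2 + Real.log d + Real.log (1 - Real.log d) := by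
    have := Real.log_le_log (mul_pos hA hF) hah
    rw [Real.log_mul hA.ne' hF.ne', Real.log_mul (by positivity) h1l.ne',
      Real.log_mul (by norm_num) hd.ne'] at this
    exact this
  have hP : - Real.log d - Real.log (1 - Real.log d) ≤ Real.log (2 / A) + P F z := by
    rw [Real.log_div (by norm_num) hA.ne']
    unfold P
    linarith
  refine le_trans ?_ hP
  have hd2 : 0 < d ^ 2 := by positivity
  have hle : d ^ 2 ≤ ‖(A : ℂ) * F z - p‖ ^ 2 := by
    exact pow_le_pow_left₀ hd.le hdp 2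
  refine (psiS_anti hd2 hle).trans ?_
  rcases lt_or_ge (d ^ 2) 1 with h | h
  · rw [psiS_of_lt h, Real.log_pow]
    have e : - (((2 : ℕ) : ℝ) * Real.log d) / 2 = - Real.log d := by push_cast; ring
    rw [e]
    have e2 : 1 + - Real.log d = 1 - Real.log d := by ring
    rw [e2]
  · rw [psiS_of_ge h]
    have : Real.log (1 - Real.log d) ≤ (1 - Real.log d) - 1 := Real.log_le_sub_one_of_pos h1l
    linarith

theorem A_le_two {F : ℂ → ℂ} {A : ℝ} {E : Set ℂ} (hG : Good F) (hA : 0 < A)
    (hC : Cov F A E) : A ≤ 2 := by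
  have h0 : (0 : ℂ) ∈ ball (0 : ℂ) 1 := by simp
  have hd := infDist_pos_of hC h0
  have hah := ahlfors_mul hG hA hC h0
  generalize infDist ((A : ℂ) * F 0) E = d at hd hah
  rw [hG.one] at hah
  simp only [norm_one, norm_zero] at hah
  have h1 : - Real.log d ≤ 1 / d - 1 := by
    rw [← Real.log_inv]
    have := Real.log_le_sub_one_of_pos (inv_pos.2 hd)
    rw [one_div]
    exact this
  have h2 : d * (1 - Real.log d) ≤ 1 := by
    have : 1 - Real.log d ≤ 1 / d := by linarith
    calc d * (1 - Real.log d) ≤ d * (1 / d) := mul_le_mul_of_nonneg_left this hd.le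
      _ = 1 := by field_simp
  nlinarith

end Pool.Agent.Helper91.LC.R54Lower

namespace Pool.Agent.Helper91.LC.Spec

alias aff_le_psiS := Pool.Agent.Helper91.LC.R54Lower.aff_le_psiS

alias psiS_nonneg := Pool.Agent.Helper91.LC.R54Lower.psiS_nonneg

alias psiS_anti := Pool.Agent.Helper91.LC.R54Lower.psiS_anti

alias lower := Pool.Agent.Helper91.LC.R54Lower.lower

alias A_le_two := Pool.Agent.Helper91.LC.R54Lower.A_le_two

end Pool.Agent.Helper91.LC.Spec
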