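import Pool.Agent.Helper91.LC.Defs
import Pool.Agent.Helper91.LC.R.Lower
import Pool.Agent.Helper91.LC.R.Bonk
import Pool.Agent.Helper91.LC.R.ExistsInv
import Pool.Agent.Helper91.LC.R.First

/-!
# Project LC, piece LC-11: the distance from `0` to the omitted set
-/

set_option autoImplicit false

namespace Pool.Agent.Helper91.LC.R35Delta0

open Complex Metric Set Pool.Agent.Helper91.LC

private lemma log_11 : Real.log 1.1 ≤ 0.0954 := by
  rw [Real.log_le_iff_le_exp (by norm_num)]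
  refine le_trans ?_ (Real.sum_le_exp_of_nonneg (x := 0.0954) (by norm_num) 4)
  norm_num [Finset.sum_range_succ, Nat.factorial]

private lemma log_1215 : Real.log 1.215 ≤ 0.19475 := by
  rw [Real.log_le_iff_le_exp (by norm_num)]
  refine le_trans ?_ (Real.sum_le_exp_of_nonneg (x := 0.19475) (by norm_num) 6)
  norm_num [Finset.sum_range_succ, Nat.factorial]

private lemma exp_02 : Real.exp 0.2 ≤ 1.2215 := by
  refine le_trans (Real.exp_bound' (x := 0.2) (by norm_num) (by norm_num) (n := 5)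
    (by norm_num)) ?_
  norm_num [Finset.sum_range_succ, Nat.factorial]

private lemma exp_043 : Real.exp 0.43 ≤ 1.5373 := by
  refine le_trans (Real.exp_bound' (x := 0.43) (by norm_num) (by norm_num) (n := 6)
    (by norm_num)) ?_
  norm_num [Finset.sum_range_succ, Nat.factorial]

private lemma aff_01 {s : ℝ} (hs0 : 0 < s) (hs : s ≤ 0.81) : 0.0045 ≤ aff 0.1 s := by
  unfold aff
  have h1 := log_11
  have h2 := exp_02
  have h3 : Real.exp (2 * 0.1) * s ≤ 1.2215 * 0.81 := by
    have : (2 * 0.1 : ℝ) = 0.2 := by norm_num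
    rw [this]
    exact mul_le_mul h2 hs hs0.le (by norm_num)
  have h4 : Real.log (1 + 0.1) ≤ 0.0954 := by
    have : (1 + 0.1 : ℝ) = 1.1 := by norm_num
    rw [this]
    exact h1
  have h5 : 0 ≤ (0.1 : ℝ) / (2 * (1 + 0.1)) * (1 - Real.exp (2 * 0.1) * s) := by
    apply mul_nonneg (by norm_num)
    nlinarith
  linarith

private lemma aff_0215 {s : ℝ} (hs0 : 0 < s) (hs : s ≤ 0.806295 ^ 2) :
    0.0203 ≤ aff 0.215 s := by
  unfold aff
  have h2 := exp_043
  have h3 : Real.exp (2 * 0.215) * s ≤ 1.5373 * 0.806295 ^ 2 := by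
    have : (2 * 0.215 : ℝ) = 0.43 := by norm_num
    rw [this]
    exact mul_le_mul h2 hs hs0.le (by norm_num)
  have h4 : Real.log (1 + 0.215) ≤ 0.19475 := by
    have : (1 + 0.215 : ℝ) = 1.215 := by norm_num
    rw [this]
    exact log_1215
  have h5 : (0.215 : ℝ) / (2 * (1 + 0.215)) * (1 - 1.5373 * 0.806295 ^ 2) ≤
      (0.215 : ℝ) / (2 * (1 + 0.215)) * (1 - Real.exp (2 * 0.215) * s) := by
    apply mul_le_mul_of_nonneg_left _ (by norm_num)
    linarith
  have h6 : (0.00005 : ℝ) ≤ (0.215 : ℝ) / (2 * (1 + 0.215)) * (1 - 1.5373 * 0.806295 ^ 2) := by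
    norm_num
  linarith

/-- LC-11. -/
theorem delta0 {F : ℂ → ℂ} {A : ℝ} {E : Set ℂ} (hG : Good F) (hA : 0 < A) (hC : Cov F A E)
    (hc : Real.log (2 / A) ≤ 0.0005) : 0.9962 ≤ infDist 0 E := by
  obtain ⟨p, hp, hpd⟩ := hC.clo.exists_infDist_eq_dist hC.ne 0
  have hd : infDist 0 E = ‖p‖ := by rw [hpd, dist_zero_left]
  rw [hd]
  have hA2 : A ≤ 2 := Spec.A_le_two hG hA hC
  have hA1 : 1.999 ≤ A := by
    have h1 : Real.exp (-0.0005) ≤ Real.exp (-Real.log (2 / A)) := by
      apply Real.exp_le_exp.2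
      linarith
    have h2 : Real.exp (-Real.log (2 / A)) = A / 2 := by
      rw [Real.exp_neg, Real.exp_log (by positivity), inv_div]
    have h3 : (-0.0005 : ℝ) + 1 ≤ Real.exp (-0.0005) := Real.add_one_le_exp _
    rw [h2] at h1
    linarith
  have h00 : (0 : ℂ) ∈ ball (0 : ℂ) 1 := mem_ball_self one_pos
  have hp0 : 0 < ‖p‖ := by
    rw [norm_pos_iff]
    rintro rfl
    have := hC.dis 0 h00
    rw [hG.zero, mul_zero] at this
    exact this hp
  -- first step
  have hP0 : P F 0 = 0 := by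
    simp [P, hG.one]
  have h1 : psiS (‖p‖ ^ 2) ≤ 0.0005 := by
    have h := Spec.lower hG hA hC h00 (by rw [hG.one]; exact one_ne_zero) hp
    rw [hG.zero, mul_zero, zero_sub, norm_neg, hP0, add_zero] at h
    exact h.trans hc
  have h2 : 0.9 ≤ ‖p‖ := by
    by_contra hlt
    push Not at hlt
    have h3 : ‖p‖ ^ 2 ≤ 0.81 := by nlinarith
    have h4 := aff_01 (by positivity) h3
    have h5 := Spec.aff_le_psiS (x := 0.1) (by norm_num) (s := ‖p‖ ^ 2) (by positivity)
    linarith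
  -- second step
  by_contra hlt
  push Not at hlt
  obtain ⟨f, hI⟩ := Spec.exists_inv hG
  have hs3 : (1.7 : ℝ) < √3 := by
    rw [Real.lt_sqrt (by norm_num)]
    norm_num
  let v : ℂ := ((0.095 / ‖p‖ : ℝ) : ℂ) * p
  have hv : ‖v‖ = 0.095 := by
    change ‖((0.095 / ‖p‖ : ℝ) : ℂ) * p‖ = 0.095
    rw [norm_mul, Complex.norm_real, Real.norm_of_nonneg (by positivity)]
    field_simp
  have hvb : v ∈ ball (0 : ℂ) (√3 / 4) := by
    rw [mem_ball_zero_iff, hv]
    linarith
  have hfv := hI.lt v hvb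
  have hfv1 : f v ∈ ball (0 : ℂ) 1 := by
    rw [mem_ball_zero_iff]
    refine hfv.trans ?_
    rw [div_lt_one (by linarith)]
    linarith
  have hne : deriv F (f v) ≠ 0 := by
    intro h0
    have h := Spec.bonk hG hfv
    rw [h0, Complex.zero_re] at h
    have h6 : √3 * ‖f v‖ < 1 := by
      rw [lt_div_iff₀ (by linarith)] at hfv
      linarith
    have h7 : ‖f v‖ / √3 < 1 := by
      rw [div_lt_one (by linarith)]
      have := mem_ball_zero_iff.1 hfv1
      linarith
    have h8 : 0 < (1 - √3 * ‖f v‖) / (1 - ‖f v‖ / √3) ^ 3 :=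
      div_pos (by linarith) (pow_pos (by linarith) 3)
    linarith
  have h3 := Spec.lower hG hA hC hfv1 hne hp
  have h4 := Spec.P_le_095 hG hI (v := v) hv.le
  rw [hI.eq v hvb] at h3
  have h5 : ‖(A : ℂ) * v - p‖ = ‖p‖ - 0.095 * A := by
    have e1 : (A : ℂ) * v - p = ((A * (0.095 / ‖p‖) - 1 : ℝ) : ℂ) * p := by
      change (A : ℂ) * (((0.095 / ‖p‖ : ℝ) : ℂ) * p) - p = _
      push_cast
      ring
    rw [e1, norm_mul, Complex.norm_real]
    have e2 : A * (0.095 / ‖p‖) - 1 = -((‖p‖ - 0.095 * A) / ‖p‖) := by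
      field_simp
      ring
    rw [e2, norm_neg, Real.norm_of_nonneg (div_nonneg (by linarith) hp0.le)]
    field_simp
  have h6 : ‖(A : ℂ) * v - p‖ ^ 2 ≤ 0.806295 ^ 2 := by
    rw [h5]
    apply pow_le_pow_left₀ (by linarith)
    linarith
  have h7 : 0 < ‖(A : ℂ) * v - p‖ ^ 2 := by
    rw [h5]
    have : 0 < ‖p‖ - 0.095 * A := by linarith
    positivity
  have h8 := aff_0215 h7 h6
  have h9 := Spec.aff_le_psiS (x := 0.215) (by norm_num) h7
  linarith

end Pool.Agent.Helper91.LC.R35Delta0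

namespace Pool.Agent.Helper91.LC.Spec

alias delta0 := Pool.Agent.Helper91.LC.R35Delta0.delta0

end Pool.Agent.Helper91.LC.Spec
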