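import Pool.Agent.Helper51.LC.Geo

namespace Pool.Agent.Helper91.LC.Spec

alias geo := Pool.Agent.Helper51.LC.geo

end Pool.Agent.Helper91.LC.Spec
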