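import Pool.Agent.Helper42.LC.MeanW

namespace Pool.Agent.Helper91.LC.Spec

alias mean_W := Pool.Agent.Helper42.LC.mean_W

end Pool.Agent.Helper91.LC.Spec
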