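import Pool.Agent.Helper91.LC.Defs
import Pool.Agent.Helper91.LC.R.MeanW
import Pool.Agent.Helper91.LC.R.Coeffs
import Pool.Agent.Helper91.LC.R.FLe
import Pool.Agent.Helper91.LC.R.First
import Pool.Agent.Helper91.LC.R.Eta

/-!
# LC-8c: first order effect of the nonlinearity
-/

set_option autoImplicit false

namespace Pool.Agent.Helper91.LC.R74MeanWEta

open Complex Metric Set Filter
open Pool.Agent.Helper91.LC

private lemma rho_gt : (0.3 : ℝ) < √3 / 4 := by
  have h1 : (1.2 : ℝ) < √3 := Real.lt_sqrt_of_sq_lt (by norm_num)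
  linarith

private lemma inv_sqrt_three_lt : (1 : ℝ) / √3 < 1 := by
  have h1 : (1.2 : ℝ) < √3 := Real.lt_sqrt_of_sq_lt (by norm_num)
  rw [div_lt_one (by linarith)]
  linarith

/-- first order effect of the nonlinearity. -/
theorem mean_W_eta {F f : ℂ → ℂ} (hG : Good F) (hI : Inv F f) :
    Real.circleAverage
      (fun v => (1 + (v ^ 2).re / 0.09) * (2 * (v * (starRingEnd ℂ) (f v - v)).re)) 0 0.3
      ≤ 0.0027 := by
  obtain ⟨b3, b4, M, hb3, -, hM, -, hF⟩ := Spec.coeffs hG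
  have hρ : (0 : ℝ) < √3 / 4 := lt_trans (by norm_num) rho_gt
  have h0 : (0 : ℂ) ∈ ball (0 : ℂ) (√3 / 4) := mem_ball_self hρ
  have hnhds : ball (0 : ℂ) (√3 / 4) ∈ nhds (0 : ℂ) := isOpen_ball.mem_nhds h0
  have hmaps : ∀ v ∈ ball (0 : ℂ) (√3 / 4), f v ∈ ball (0 : ℂ) 1 := by
    intro v hv
    rw [mem_ball_zero_iff]
    exact lt_trans (hI.lt v hv) inv_sqrt_three_lt
  -- the derivative of `f` at `0`
  have hf1 : deriv f 0 = 1 := by
    have hfd : DifferentiableAt ℂ f 0 := (hI.diff 0 h0).differentiableAt hnhds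
    have hFd : HasDerivAt F 1 (f 0) := by
      rw [hI.zero, ← hG.one]
      exact ((hG.diff 0 (mem_ball_self one_pos)).differentiableAt
        (isOpen_ball.mem_nhds (mem_ball_self one_pos))).hasDerivAt
    have hcomp : HasDerivAt (F ∘ f) (1 * deriv f 0) 0 := hFd.comp 0 hfd.hasDerivAt
    have heq : (F ∘ f) =ᶠ[nhds 0] id := by
      filter_upwards [hnhds] with v hv
      exact hI.eq v hv
    have hid : HasDerivAt (F ∘ f) 1 0 := (hasDerivAt_id (0 : ℂ)).congr_of_eventuallyEq heq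
    have := hcomp.unique hid
    rwa [one_mul] at this
  let s : ℂ → ℂ := dslope f 0
  have hs : DifferentiableOn ℂ s (ball 0 (√3 / 4)) :=
    (Complex.differentiableOn_dslope hnhds).mpr hI.diff
  have hs0 : s 0 = 1 := by
    change dslope f 0 0 = 1
    rw [dslope_same, hf1]
  have hfs : ∀ v, f v = v * s v := by
    intro v
    have := sub_smul_dslope f 0 v
    rw [hI.zero, sub_zero, sub_zero, smul_eq_mul] at this
    exact this.symm
  let Q : ℂ → ℂ := fun v => s v ^ 3 * (-b3 - b4 * f v - f v ^ 2 * M (f v))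
  have hMf : DifferentiableOn ℂ (fun v => M (f v)) (ball 0 (√3 / 4)) :=
    hM.comp hI.diff hmaps
  have hQ : DifferentiableOn ℂ Q (ball 0 (√3 / 4)) :=
    (hs.pow 3).mul (((differentiableOn_const (-b3)).sub
      ((differentiableOn_const b4).mul hI.diff)).sub ((hI.diff.pow 2).mul hMf))
  have hQ0 : Q 0 = -b3 := by
    simp only [Q, hs0, hI.zero]
    ring
  have heta : ∀ v ∈ ball (0 : ℂ) (√3 / 4), f v - v = v ^ 3 * Q v := by
    intro v hv
    have h1 := hF (f v) (hmaps v hv)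
    rw [hI.eq v hv] at h1
    have h2 : f v - v = f v ^ 3 * (-b3 - b4 * f v - f v ^ 2 * M (f v)) := by
      linear_combination -h1
    rw [h2]
    simp only [Q]
    rw [← mul_assoc, ← mul_pow, ← hfs v]
  let g : ℂ → ℂ := fun v => (0.18 : ℂ) * (v ^ 2 * Q v)
  have hg : DifferentiableOn ℂ g (ball 0 (√3 / 4)) :=
    (differentiableOn_const _).mul ((differentiableOn_id.pow 2).mul hQ)
  have hcongr : Real.circleAverage
      (fun v => (1 + (v ^ 2).re / 0.09) * (2 * (v * (starRingEnd ℂ) (f v - v)).re)) 0 0.3 =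
      Real.circleAverage (fun v => (1 + (v ^ 2).re / 0.09) * (g v).re) 0 0.3 := by
    apply Real.circleAverage_congr_sphere
    intro v hv
    have hv1 : ‖v‖ = 0.3 := by
      rw [mem_sphere_zero_iff_norm] at hv
      rw [hv]
      norm_num
    have hvb : v ∈ ball (0 : ℂ) (√3 / 4) := by
      rw [mem_ball_zero_iff, hv1]
      exact rho_gt
    have hvv : v * (starRingEnd ℂ) v = 0.09 := by
      rw [Complex.mul_conj, Complex.normSq_eq_norm_sq, hv1]
      norm_num
    have h1 : (v * (starRingEnd ℂ) (f v - v)).re = (0.09 * (v ^ 2 * Q v)).re := by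
      have h2 : (v * (starRingEnd ℂ) (f v - v)) = (starRingEnd ℂ) ((starRingEnd ℂ) v * (f v - v)) := by
        rw [map_mul, Complex.conj_conj]
      rw [h2, Complex.conj_re, heta v hvb]
      congr 1
      linear_combination (v ^ 2 * Q v) * hvv
    change (1 + (v ^ 2).re / 0.09) * (2 * (v * (starRingEnd ℂ) (f v - v)).re) =
      (1 + (v ^ 2).re / 0.09) * ((0.18 : ℂ) * (v ^ 2 * Q v)).re
    rw [h1]
    congr 1
    have h3 : (0.18 : ℂ) * (v ^ 2 * Q v) = ((2 : ℝ) : ℂ) * (0.09 * (v ^ 2 * Q v)) := by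
      push_cast
      ring
    rw [h3, Complex.re_ofReal_mul]
  rw [hcongr, Spec.mean_W rho_gt hg]
  have hg0 : g 0 = 0 := by
    simp [g]
  have hQd : ∀ v ∈ ball (0 : ℂ) (√3 / 4), HasDerivAt Q (deriv Q v) v := fun v hv =>
    ((hQ v hv).differentiableAt (isOpen_ball.mem_nhds hv)).hasDerivAt
  have hQ' : DifferentiableOn ℂ (deriv Q) (ball 0 (√3 / 4)) := hQ.deriv isOpen_ball
  have hg1 : deriv g =ᶠ[nhds 0] fun v => (0.18 : ℂ) * (2 * v * Q v + v ^ 2 * deriv Q v) := by
    filter_upwards [hnhds] with v hv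
    have h1 : HasDerivAt (fun v : ℂ => v ^ 2) (2 * v) v := by
      simpa using hasDerivAt_pow 2 v
    exact ((h1.mul (hQd v hv)).const_mul (0.18 : ℂ)).deriv
  have hg2 : deriv (deriv g) 0 = (0.18 : ℂ) * (2 * Q 0) := by
    rw [hg1.deriv_eq]
    have h1 : HasDerivAt (fun v : ℂ => 2 * v * Q v) (2 * Q 0 + 2 * 0 * deriv Q 0) 0 := by
      have h3 : HasDerivAt (fun v : ℂ => 2 * v) 2 0 := by
        simpa using (hasDerivAt_id (0 : ℂ)).const_mul (2 : ℂ)
      exact h3.mul (hQd 0 h0)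
    have h2 : HasDerivAt (fun v : ℂ => v ^ 2 * deriv Q v)
        (2 * 0 * deriv Q 0 + 0 ^ 2 * deriv (deriv Q) 0) 0 := by
      have h3 : HasDerivAt (fun v : ℂ => v ^ 2) (2 * 0) 0 := by
        simpa using hasDerivAt_pow 2 (0 : ℂ)
      exact h3.mul ((hQ' 0 h0).differentiableAt hnhds).hasDerivAt
    have h5 : HasDerivAt (fun v : ℂ => (0.18 : ℂ) * (2 * v * Q v + v ^ 2 * deriv Q v))
        ((0.18 : ℂ) * ((2 * Q 0 + 2 * 0 * deriv Q 0) +
          (2 * 0 * deriv Q 0 + 0 ^ 2 * deriv (deriv Q) 0))) 0 :=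
      (h1.add h2).const_mul (0.18 : ℂ)
    rw [h5.deriv]
    ring
  rw [hg0, hg2, hQ0]
  have h4 : ((0.18 : ℂ) * (2 * -b3)).re = -0.36 * b3.re := by
    have : (0.18 : ℂ) * (2 * -b3) = ((-0.36 : ℝ) : ℂ) * b3 := by
      push_cast
      ring
    rw [this, Complex.re_ofReal_mul]
  rw [h4, Complex.zero_re]
  have h5 : -b3.re ≤ 1 / 3 := by
    have := (abs_le.mp (Complex.abs_re_le_norm b3)).1
    linarith
  linarith

end Pool.Agent.Helper91.LC.R74MeanWEta

namespace Pool.Agent.Helper91.LC.Spec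

alias mean_W_eta := Pool.Agent.Helper91.LC.R74MeanWEta.mean_W_eta

end Pool.Agent.Helper91.LC.Spec
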