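import Pool.Agent.Helper91.LC.Defs
import Pool.Agent.Helper91.LC.R.ExistsLog
import Pool.Agent.Helper91.LC.R.Eta
import Pool.Agent.Helper91.LC.R.FLe
import Pool.Agent.Helper91.LC.R.First

/-! Project LC: piece LC-10 (the mean inequality at a nearby centre). -/

set_option autoImplicit false

namespace Pool.Agent.Helper91.LC.R28Mean1

open Complex Metric Set
open Pool.Agent.Helper91.LC

theorem sqrt3_gt : (0.43 : ℝ) < √3 / 4 := by
  have : (1.72 : ℝ) < √3 := Real.lt_sqrt_of_sq_lt (by norm_num)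
  linarith

theorem avg_deriv {U : Set ℂ} (hU : IsOpen U) {a : ℂ} {R : ℝ} (hR : 0 < R) {g : ℂ → ℂ}
    (hc : closedBall a R ⊆ U) (hg : DifferentiableOn ℂ g U) :
    Real.circleAverage (fun v => (v - a)⁻¹ * g v) a R = deriv g a := by
  rw [Real.circleAverage_eq_circleIntegral hR.ne',
    ← two_pi_I_inv_smul_circleIntegral_sub_sq_inv_smul_of_differentiable hU hc hg
      (mem_ball_self hR)]
  congr 2
  funext z
  rw [smul_eq_mul, smul_eq_mul, sq, mul_inv, mul_assoc]

theorem log_upper {x : ℝ} (h1 : |x| < 1) :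
    - Real.log (1 - x) ≤ x + x ^ 2 / 2 + |x| ^ 3 / (1 - |x|) := by
  have h := Real.abs_log_sub_add_sum_range_le h1 2
  rw [Finset.sum_range_succ, Finset.sum_range_one] at h
  have h2 := (abs_le.1 h).1
  norm_num at h2 ⊢
  linarith

theorem log_num : - Real.log 0.90983616 ≤ 0.0945 := by
  have h := Real.abs_log_sub_add_sum_range_le (x := 0.09016384) (by norm_num [abs_lt]) 4
  rw [Finset.sum_range_succ, Finset.sum_range_succ, Finset.sum_range_succ,
    Finset.sum_range_one] at h
  have h2 := (abs_le.1 h).1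
  rw [abs_of_pos (by norm_num : (0 : ℝ) < 0.09016384)] at h2
  have h3 : (1 : ℝ) - 0.09016384 = 0.90983616 := by norm_num
  rw [h3] at h2
  norm_num at h2 ⊢
  linarith

theorem kappa_le {s t : ℝ} (ht : t ≤ 0.09016384) (h : |s - t| ≤ 0.032856) :
    - Real.log (1 - s) ≤ 0.0945 + (1 / (1 - t)) * (s - t) + 0.000702 := by
  have h1 : (0.90983616 : ℝ) ≤ 1 - t := by linarith
  have h1' : (0 : ℝ) < 1 - t := by linarith
  set y := (s - t) / (1 - t) with hy
  have hyabs : |y| ≤ 0.036113 := by
    rw [hy, abs_div, abs_of_pos h1', div_le_iff₀ h1']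
    nlinarith
  have hy1 : |y| < 1 := by linarith
  have h2 : 1 - s = (1 - t) * (1 - y) := by
    rw [hy]
    field_simp
    ring
  have h3 : (0 : ℝ) < 1 - y := by
    have := (abs_lt.1 hy1).2
    linarith
  have h4 := log_upper hy1
  have h5 : Real.log 0.90983616 ≤ Real.log (1 - t) := Real.log_le_log (by norm_num) h1
  have h6 := log_num
  have h7 : y ^ 2 / 2 ≤ 0.00065208 := by
    have : y ^ 2 ≤ 0.036113 ^ 2 := by
      rw [← sq_abs]
      exact pow_le_pow_left₀ (abs_nonneg _) hyabs 2
    norm_num at this ⊢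
    linarith
  have h8 : |y| ^ 3 / (1 - |y|) ≤ 0.0000489 := by
    rw [div_le_iff₀ (by linarith)]
    have : |y| ^ 3 ≤ 0.036113 ^ 3 := pow_le_pow_left₀ (abs_nonneg _) hyabs 3
    norm_num at this ⊢
    linarith
  rw [h2, Real.log_mul (by linarith) (by linarith)]
  have h9 : (1 / (1 - t)) * (s - t) = y := by
    rw [hy]
    ring
  rw [h9]
  linarith

theorem sq_norm_add (x y : ℂ) :
    ‖x + y‖ ^ 2 = ‖x‖ ^ 2 + ‖y‖ ^ 2 + 2 * ((starRingEnd ℂ) x * y).re := by
  rw [Complex.sq_norm, Complex.sq_norm, Complex.sq_norm, Complex.normSq_apply,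
    Complex.normSq_apply, Complex.normSq_apply]
  simp only [Complex.add_re, Complex.add_im, Complex.mul_re, Complex.conj_re, Complex.conj_im]
  ring

theorem mean1 {F f : ℂ → ℂ} (hG : Good F) (hI : Inv F f) {a : ℂ} (ha : ‖a‖ ≤ 0.0128) :
    Real.circleAverage (fun v => P F (f v)) a 0.3 ≤ 0.0973 := by
  by_cases hint : CircleIntegrable (fun v => P F (f v)) a 0.3
  swap
  · rw [Real.circleAverage.integral_undef hint]
    norm_num
  obtain ⟨h, hd, -, -, -, hexp⟩ := Spec.exists_log hG hI
  set η : ℂ → ℂ := fun v => f v - v with hη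
  have h3 := sqrt3_gt
  have hηd : DifferentiableOn ℂ η (ball 0 (√3 / 4)) := hI.diff.sub differentiableOn_id
  set c : ℂ := (starRingEnd ℂ) a with hc
  set t : ℝ := 0.09 + ‖a‖ ^ 2 with ht
  have hcn : ‖c‖ ≤ 0.0128 := by rw [hc, RCLike.norm_conj]; exact ha
  have ht1 : t ≤ 0.09016384 := by
    have : ‖a‖ ^ 2 ≤ 0.0128 ^ 2 := pow_le_pow_left₀ (norm_nonneg _) ha 2
    rw [ht]
    norm_num at this ⊢
    linarith
  have ht2 : (0 : ℝ) < 1 - t := by linarith
  set μ : ℝ := 1 / (1 - t) with hμ
  have hμ0 : 0 ≤ μ := by rw [hμ]; positivity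
  have hμ1 : μ ≤ 1.0992 := by
    rw [hμ, div_le_iff₀ ht2]
    linarith
  -- the points of the circle
  have hnorm : ∀ v ∈ closedBall a (0.3 : ℝ), ‖v‖ ≤ 0.3128 := by
    intro v hv
    rw [mem_closedBall, dist_eq_norm] at hv
    have h1 : ‖v‖ ≤ ‖v - a‖ + ‖a‖ := by
      have := norm_add_le (v - a) a
      rwa [sub_add_cancel] at this
    linarith
  have hsub : closedBall a (0.3 : ℝ) ⊆ ball 0 (√3 / 4) := by
    intro v hv
    rw [mem_ball_zero_iff]
    have := hnorm v hv
    linarith
  have hdiff : ∀ g : ℂ → ℂ, DifferentiableOn ℂ g (ball 0 (√3 / 4)) →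
      DiffContOnCl ℂ g (ball a |(0.3 : ℝ)|) := by
    intro g hg
    rw [abs_of_pos (by norm_num : (0 : ℝ) < 0.3)]
    exact hg.diffContOnCl_ball hsub
  have hcont : ∀ g : ℂ → ℂ, DifferentiableOn ℂ g (ball 0 (√3 / 4)) →
      CircleIntegrable g a 0.3 := by
    intro g hg
    refine ContinuousOn.circleIntegrable (by norm_num) ?_
    exact hg.continuousOn.mono (sphere_subset_closedBall.trans hsub)
  -- the two parts
  set G1 : ℂ → ℂ := fun v => h v + (μ : ℂ) * (2 * (c * (v - a)) + 2 * (c * η v)) with hG1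
  set G2 : ℂ → ℂ := fun v => ((0.18 * μ : ℝ) : ℂ) * ((v - a)⁻¹ * η v) with hG2
  have hG1d : DifferentiableOn ℂ G1 (ball 0 (√3 / 4)) := by
    refine hd.add (DifferentiableOn.const_mul (DifferentiableOn.add
      (DifferentiableOn.const_mul (DifferentiableOn.const_mul
        (differentiableOn_id.sub (differentiableOn_const a)) _) _)
      (DifferentiableOn.const_mul (DifferentiableOn.const_mul hηd _) _)) _)
  have hA1 : Real.circleAverage G1 a 0.3 = h a + (μ : ℂ) * (2 * (c * η a)) := by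
    rw [DiffContOnCl.circleAverage (hdiff G1 hG1d), hG1]
    simp
  have hA2 : Real.circleAverage G2 a 0.3 = ((0.18 * μ : ℝ) : ℂ) * deriv η a := by
    have := avg_deriv isOpen_ball (a := a) (R := 0.3) (by norm_num) hsub hηd
    rw [← this, hG2]
    exact Real.circleAverage_fun_smul (a := ((0.18 * μ : ℝ) : ℂ))
      (f := fun v => (v - a)⁻¹ * η v)
  have hI1 : CircleIntegrable G1 a 0.3 := hcont G1 hG1d
  have hI2 : CircleIntegrable G2 a 0.3 := by
    refine ContinuousOn.circleIntegrable (by norm_num) ?_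
    refine ContinuousOn.mul continuousOn_const (ContinuousOn.mul ?_ ?_)
    · refine ContinuousOn.inv₀ (continuousOn_id.sub continuousOn_const) ?_
      intro v hv hv0
      have h1 : v = a := sub_eq_zero.1 hv0
      rw [h1, mem_sphere, dist_self] at hv
      norm_num at hv
    · exact hηd.continuousOn.mono (sphere_subset_closedBall.trans hsub)
  have hI12 : CircleIntegrable (G1 + G2) a 0.3 := hI1.add hI2
  have hA : Real.circleAverage (G1 + G2) a 0.3 =
      h a + (μ : ℂ) * (2 * (c * η a)) + ((0.18 * μ : ℝ) : ℂ) * deriv η a := by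
    rw [Real.circleAverage_add hI1 hI2, hA1, hA2]
  have hRe : Real.circleAverage (fun v => (G1 v + G2 v).re) a 0.3 =
      (h a + (μ : ℂ) * (2 * (c * η a)) + ((0.18 * μ : ℝ) : ℂ) * deriv η a).re := by
    rw [← hA]
    exact Complex.reCLM.circleAverage_comp_comm hI12
  have hIR : CircleIntegrable (fun v => (G1 v + G2 v).re) a 0.3 := by
    have h1 : ContinuousOn (G1 + G2) (sphere a 0.3) := by
      refine ContinuousOn.add (hG1d.continuousOn.mono (sphere_subset_closedBall.trans hsub)) ?_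
      refine ContinuousOn.mul continuousOn_const (ContinuousOn.mul ?_ ?_)
      · refine ContinuousOn.inv₀ (continuousOn_id.sub continuousOn_const) ?_
        intro v hv hv0
        have h1 : v = a := sub_eq_zero.1 hv0
        rw [h1, mem_sphere, dist_self] at hv
        norm_num at hv
      · exact hηd.continuousOn.mono (sphere_subset_closedBall.trans hsub)
    exact ContinuousOn.circleIntegrable (by norm_num) (Complex.continuous_re.comp_continuousOn h1)
  -- pointwise
  have hpt : ∀ v ∈ sphere a |(0.3 : ℝ)|, P F (f v) ≤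
      (G1 v + G2 v).re + (0.0945 + 0.000702 + μ * 0.03794 ^ 2) := by
    intro v hv
    rw [abs_of_pos (by norm_num : (0 : ℝ) < 0.3)] at hv
    have hvb : v ∈ ball (0 : ℂ) (√3 / 4) := hsub (sphere_subset_closedBall hv)
    have hv1 : ‖v‖ ≤ 0.3128 := hnorm v (sphere_subset_closedBall hv)
    have hv2 : ‖v - a‖ = 0.3 := by rwa [mem_sphere, dist_eq_norm] at hv
    have hη1 : ‖η v‖ ≤ 0.03794 := Spec.eta_le_313 hG hI hv1
    have hP : P F (f v) = (h v).re - Real.log (1 - ‖f v‖ ^ 2) := by
      rw [Spec.P_eq hG hI hvb, ← hexp v hvb, Complex.norm_exp, Real.log_exp]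
    have hva : v - a ≠ 0 := by
      intro h0
      rw [h0, norm_zero] at hv2
      norm_num at hv2
    have hconj : (starRingEnd ℂ) (v - a) = 0.09 * (v - a)⁻¹ := by
      rw [eq_mul_inv_iff_mul_eq₀ hva, mul_comm, Complex.mul_conj, Complex.normSq_eq_norm_sq, hv2]
      push_cast
      norm_num
    have hs1 : ‖f v‖ ^ 2 = ‖v‖ ^ 2 + ‖η v‖ ^ 2 + 2 * ((starRingEnd ℂ) v * η v).re := by
      rw [← sq_norm_add]
      congr 2
      rw [hη]
      ring
    have hs2 : ‖v‖ ^ 2 = ‖a‖ ^ 2 + 0.3 ^ 2 + 2 * (c * (v - a)).re := by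
      rw [← hv2, hc, ← sq_norm_add]
      congr 2
      ring
    have hs3 : ((starRingEnd ℂ) v * η v).re =
        (c * η v).re + 0.09 * ((v - a)⁻¹ * η v).re := by
      have h1 : (starRingEnd ℂ) v = c + 0.09 * (v - a)⁻¹ := by
        rw [← hconj, hc, ← map_add]
        congr 1
        ring
      rw [h1, add_mul, Complex.add_re, mul_assoc]
      congr 1
      have h2 : (0.09 : ℂ) = ((0.09 : ℝ) : ℂ) := by push_cast; norm_num
      rw [h2, Complex.re_ofReal_mul]
    set T : ℝ := 2 * (c * (v - a)).re + 2 * ((starRingEnd ℂ) v * η v).re with hT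
    have hst : ‖f v‖ ^ 2 - t = T + ‖η v‖ ^ 2 := by
      rw [hs1, hs2, ht, hT]
      norm_num
      ring
    have hTabs : |T| ≤ 2 * (0.0128 * 0.3) + 2 * (0.3128 * 0.03794) := by
      have e1 : |(c * (v - a)).re| ≤ 0.0128 * 0.3 := by
        refine le_trans (Complex.abs_re_le_norm _) ?_
        rw [norm_mul, hv2]
        exact mul_le_mul_of_nonneg_right hcn (by norm_num)
      have e2 : |((starRingEnd ℂ) v * η v).re| ≤ 0.3128 * 0.03794 := by
        refine le_trans (Complex.abs_re_le_norm _) ?_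
        rw [norm_mul, RCLike.norm_conj]
        exact mul_le_mul hv1 hη1 (norm_nonneg _) (by norm_num)
      rw [hT, abs_le]
      have e3 := abs_le.1 e1
      have e4 := abs_le.1 e2
      constructor
      · linarith [e3.1, e4.1]
      · linarith [e3.2, e4.2]
    have hηsq : ‖η v‖ ^ 2 ≤ 0.03794 ^ 2 := pow_le_pow_left₀ (norm_nonneg _) hη1 2
    have hηsq0 : 0 ≤ ‖η v‖ ^ 2 := by positivity
    have habs : |‖f v‖ ^ 2 - t| ≤ 0.032856 := by
      rw [hst, abs_le]
      have e3 := abs_le.1 hTabs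
      constructor
      · norm_num at e3 ⊢
        linarith [e3.1]
      · norm_num at e3 hηsq ⊢
        linarith [e3.2]
    have hk := kappa_le ht1 habs
    have hre : (G1 v + G2 v).re = (h v).re + μ * T := by
      rw [hG1, hG2, hT, hs3]
      simp only [Complex.add_re]
      rw [Complex.re_ofReal_mul, Complex.re_ofReal_mul]
      simp only [Complex.add_re]
      have h2 : ∀ z : ℂ, (2 * z).re = 2 * z.re := by
        intro z
        simp
      rw [h2, h2]
      ring
    rw [hP, hre]
    have hmul : μ * (‖f v‖ ^ 2 - t) ≤ μ * T + μ * 0.03794 ^ 2 := by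
      rw [hst, mul_add]
      have := mul_le_mul_of_nonneg_left hηsq hμ0
      linarith
    rw [← hμ] at hk
    linarith
  have hle : Real.circleAverage (fun v => P F (f v)) a 0.3 ≤
      Real.circleAverage (fun v => (G1 v + G2 v).re + (0.0945 + 0.000702 + μ * 0.03794 ^ 2))
        a 0.3 :=
    Real.circleAverage_mono hint (hIR.add (circleIntegrable_const _ _ _)) hpt
  rw [Real.circleAverage_fun_add hIR (circleIntegrable_const _ _ _), hRe,
    Real.circleAverage_const] at hle
  refine le_trans hle ?_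
  -- the value at the centre
  have hab : a ∈ ball (0 : ℂ) (√3 / 4) := by
    rw [mem_ball_zero_iff]
    linarith
  have hha : (h a).re ≤ 0.00034 := by
    have h1 := Spec.P_le_013 hG hI ha
    rw [Spec.P_eq hG hI hab, ← hexp a hab, Complex.norm_exp, Real.log_exp] at h1
    have h2 : Real.log (1 - ‖f a‖ ^ 2) ≤ 0 := by
      have h4 := Spec.f_le_013 hG hI ha
      have h5 : ‖f a‖ ^ 2 ≤ 0.01281 ^ 2 := pow_le_pow_left₀ (norm_nonneg _) h4 2
      have h6 : 0 ≤ ‖f a‖ ^ 2 := by positivity
      apply Real.log_nonpos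
      · norm_num at h5
        linarith
      · linarith
    linarith
  have hηa : ‖η a‖ ≤ 0.0000059 := Spec.eta_le_025 hG hI (by linarith)
  have hηa' : ‖deriv η a‖ ≤ 0.0000059 / 0.0122 := by
    apply norm_deriv_le_of_forall_mem_sphere_norm_le (by norm_num)
    · refine hηd.diffContOnCl_ball ?_
      exact (closedBall_subset_closedBall (by norm_num)).trans hsub
    · intro z hz
      apply Spec.eta_le_025 hG hI
      rw [mem_sphere, dist_eq_norm] at hz
      have h1 : ‖z‖ ≤ ‖z - a‖ + ‖a‖ := by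
        have := norm_add_le (z - a) a
        rwa [sub_add_cancel] at this
      linarith
  have e1 : (h a + (μ : ℂ) * (2 * (c * η a)) + ((0.18 * μ : ℝ) : ℂ) * deriv η a).re =
      (h a).re + μ * (2 * (c * η a).re + 0.18 * (deriv η a).re) := by
    rw [Complex.add_re, Complex.add_re, Complex.re_ofReal_mul, Complex.re_ofReal_mul]
    have h2 : (2 * (c * η a)).re = 2 * (c * η a).re := by simp
    rw [h2]
    ring
  have e2 : (c * η a).re ≤ 0.0128 * 0.0000059 := by
    refine le_trans (Complex.re_le_norm _) ?_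
    rw [norm_mul]
    exact mul_le_mul hcn hηa (norm_nonneg _) (by norm_num)
  have e3 : (deriv η a).re ≤ 0.0000059 / 0.0122 := le_trans (Complex.re_le_norm _) hηa'
  have e4 : 2 * (c * η a).re + 0.18 * (deriv η a).re + 0.03794 ^ 2 ≤ 0.0015267 := by
    norm_num at e2 e3 ⊢
    linarith
  have e5 : μ * (2 * (c * η a).re + 0.18 * (deriv η a).re + 0.03794 ^ 2) ≤
      1.0992 * 0.0015267 := by
    refine le_trans (mul_le_mul_of_nonneg_left e4 hμ0) ?_
    exact mul_le_mul_of_nonneg_right hμ1 (by norm_num)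
  rw [e1]
  have e6 : (h a).re + μ * (2 * (c * η a).re + 0.18 * (deriv η a).re) +
      (0.0945 + 0.000702 + μ * 0.03794 ^ 2) = (h a).re +
      μ * (2 * (c * η a).re + 0.18 * (deriv η a).re + 0.03794 ^ 2) + 0.095202 := by
    ring
  rw [e6]
  norm_num at e5 hha ⊢
  linarith

end Pool.Agent.Helper91.LC.R28Mean1

namespace Pool.Agent.Helper91.LC.Spec

alias mean1 := Pool.Agent.Helper91.LC.R28Mean1.mean1

end Pool.Agent.Helper91.LC.Spec
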