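import Pool.Agent.Helper91.LC.Defs
import Pool.Agent.Helper91.LC.R.Lower

/-!
# LC-15: numerical certificate, case B
-/

set_option autoImplicit false

namespace Pool.Agent.Helper91.LC.R43NumB

open Pool.Agent.Helper91.LC Set MeasureTheory

/-! ### Taylor bounds -/

lemma nonneg_of_deriv {f f' : ℝ → ℝ} (hf : ∀ x, HasDerivAt f (f' x) x)
    (hf' : ∀ x, 0 ≤ x → 0 ≤ f' x) (h0 : f 0 = 0) {x : ℝ} (hx : 0 ≤ x) : 0 ≤ f x := by
  have hmono : MonotoneOn f (Ici 0) := by
    refine monotoneOn_of_deriv_nonneg (convex_Ici 0)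
      (fun y _ => (hf y).continuousAt.continuousWithinAt)
      (fun y _ => (hf y).differentiableAt.differentiableWithinAt) ?_
    intro y hy
    rw [interior_Ici] at hy
    rw [(hf y).deriv]
    exact hf' y (le_of_lt hy)
  have := hmono (mem_Ici.2 le_rfl) (mem_Ici.2 hx) hx
  rwa [h0] at this

lemma cos_le4 {x : ℝ} (hx : 0 ≤ x) : Real.cos x ≤ 1 - x ^ 2 / 2 + x ^ 4 / 24 := by
  have h := nonneg_of_deriv (f := fun y => 1 - y ^ 2 / 2 + y ^ 4 / 24 - Real.cos y)
    (f' := fun y => Real.sin y - (y - y ^ 3 / 6)) (fun y => by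
      have h1 := ((((hasDerivAt_const y (1 : ℝ)).sub ((hasDerivAt_pow 2 y).div_const 2)).add
        ((hasDerivAt_pow 4 y).div_const 24)).sub (Real.hasDerivAt_cos y))
      refine h1.congr_deriv ?_
      simp only [Nat.cast_ofNat]
      ring) (fun y hy => sub_nonneg.2 (Real.sin_ge_sub_cube hy)) (by simp) hx
  linarith

lemma sin_le5 {x : ℝ} (hx : 0 ≤ x) : Real.sin x ≤ x - x ^ 3 / 6 + x ^ 5 / 120 := by
  have h := nonneg_of_deriv (f := fun y => y - y ^ 3 / 6 + y ^ 5 / 120 - Real.sin y)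
    (f' := fun y => 1 - y ^ 2 / 2 + y ^ 4 / 24 - Real.cos y) (fun y => by
      have h1 := ((((hasDerivAt_id y).sub ((hasDerivAt_pow 3 y).div_const 6)).add
        ((hasDerivAt_pow 5 y).div_const 120)).sub (Real.hasDerivAt_sin y))
      refine h1.congr_deriv ?_
      simp only [Nat.cast_ofNat]
      ring) (fun y hy => sub_nonneg.2 (cos_le4 hy)) (by simp) hx
  linarith

lemma cos_ge6 {x : ℝ} (hx : 0 ≤ x) : 1 - x ^ 2 / 2 + x ^ 4 / 24 - x ^ 6 / 720 ≤ Real.cos x := by
  have h := nonneg_of_deriv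
    (f := fun y => Real.cos y - (1 - y ^ 2 / 2 + y ^ 4 / 24 - y ^ 6 / 720))
    (f' := fun y => y - y ^ 3 / 6 + y ^ 5 / 120 - Real.sin y) (fun y => by
      have h1 := (Real.hasDerivAt_cos y).sub
        ((((hasDerivAt_const y (1 : ℝ)).sub ((hasDerivAt_pow 2 y).div_const 2)).add
        ((hasDerivAt_pow 4 y).div_const 24)).sub ((hasDerivAt_pow 6 y).div_const 720))
      refine h1.congr_deriv ?_
      simp only [Nat.cast_ofNat]
      ring) (fun y hy => sub_nonneg.2 (sin_le5 hy)) (by simp) hx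
  linarith

lemma sin_ge7 {x : ℝ} (hx : 0 ≤ x) :
    x - x ^ 3 / 6 + x ^ 5 / 120 - x ^ 7 / 5040 ≤ Real.sin x := by
  have h := nonneg_of_deriv
    (f := fun y => Real.sin y - (y - y ^ 3 / 6 + y ^ 5 / 120 - y ^ 7 / 5040))
    (f' := fun y => Real.cos y - (1 - y ^ 2 / 2 + y ^ 4 / 24 - y ^ 6 / 720)) (fun y => by
      have h1 := (Real.hasDerivAt_sin y).sub
        ((((hasDerivAt_id y).sub ((hasDerivAt_pow 3 y).div_const 6)).add
        ((hasDerivAt_pow 5 y).div_const 120)).sub ((hasDerivAt_pow 7 y).div_const 5040))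
      refine h1.congr_deriv ?_
      simp only [Nat.cast_ofNat]
      ring) (fun y hy => sub_nonneg.2 (cos_ge6 hy)) (by simp) hx
  linarith

lemma exp_le {x e : ℝ} (h0 : 0 ≤ x) (h1 : x ≤ 1)
    (h : ∑ m ∈ Finset.range 10, x ^ m / (m.factorial : ℝ) +
      x ^ 10 * (10 + 1) / ((Nat.factorial 10 : ℝ) * 10) ≤ e) : Real.exp x ≤ e := by
  refine (Real.exp_bound' h0 h1 (n := 10) (by norm_num)).trans ?_
  push_cast
  exact h

lemma log_le {y l : ℝ} (hy : 0 < y) (hl : 0 ≤ l)
    (h : y ≤ ∑ m ∈ Finset.range 10, l ^ m / (m.factorial : ℝ)) : Real.log y ≤ l := by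
  rw [Real.log_le_iff_le_exp hy]
  exact h.trans (Real.sum_le_exp_of_nonneg hl 10)

/-! ### the integrals -/

/-- the squared distance -/
noncomputable def sq (R t : ℝ) : ℝ := R ^ 2 + 1 - 2 * R * Real.cos t

lemma sq_pos {R : ℝ} (h0 : 0 < R) (h1 : R < 1) (t : ℝ) : 0 < sq R t := by
  have h2 := Real.cos_le_one t
  have h3 : 0 ≤ 2 * R * (1 - Real.cos t) := by
    apply mul_nonneg (by linarith)
    linarith
  have h4 : 0 < (1 - R) ^ 2 := by
    have : 0 < 1 - R := by linarith
    positivity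
  unfold sq
  nlinarith

lemma anti {R : ℝ} (h0 : 0 < R) (h1 : R < 1) :
    AntitoneOn (fun t => psiS (sq R t)) (Icc 0 Real.pi) := by
  intro s hs t ht hst
  refine Spec.psiS_anti (sq_pos h0 h1 s) ?_
  have h2 := Real.strictAntiOn_cos.antitoneOn hs ht hst
  unfold sq
  have : 2 * R * Real.cos t ≤ 2 * R * Real.cos s := mul_le_mul_of_nonneg_left h2 (by linarith)
  linarith

lemma integrable {R a b : ℝ} (h0 : 0 < R) (h1 : R < 1) (ha : 0 ≤ a) (hab : a ≤ b)
    (hb : b ≤ Real.pi) : IntervalIntegrable (fun t => psiS (sq R t)) volume a b := by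
  refine AntitoneOn.intervalIntegrable ?_
  refine (anti h0 h1).mono ?_
  rw [uIcc_of_le hab]
  exact Icc_subset_Icc ha hb

/-- integral of the affine minorant -/
lemma int_aff (R a b x : ℝ) :
    ∫ t in a..b, aff x (sq R t) =
      (x - Real.log (1 + x) + x / (2 * (1 + x))) * (b - a) +
        x / (2 * (1 + x)) * Real.exp (2 * x) *
          (2 * R * (Real.sin b - Real.sin a) - (R ^ 2 + 1) * (b - a)) := by
  have h1 : ∀ t, aff x (sq R t) =
      (x - Real.log (1 + x) + x / (2 * (1 + x)) -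
        x / (2 * (1 + x)) * Real.exp (2 * x) * (R ^ 2 + 1)) +
        (x / (2 * (1 + x)) * Real.exp (2 * x) * (2 * R)) * Real.cos t := by
    intro t
    unfold aff sq
    ring
  simp only [h1]
  rw [intervalIntegral.integral_add (by simp)
    ((Real.continuous_cos.intervalIntegrable a b).const_mul _),
    intervalIntegral.integral_const, intervalIntegral.integral_const_mul, integral_cos,
    smul_eq_mul]
  ring

lemma piece {R a b x : ℝ} (h0 : 0 < R) (h1 : R < 1) (ha : 0 ≤ a) (hab : a ≤ b)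
    (hb : b ≤ Real.pi) (hx : 0 ≤ x) :
    (x - Real.log (1 + x) + x / (2 * (1 + x))) * (b - a) +
        x / (2 * (1 + x)) * Real.exp (2 * x) *
          (2 * R * (Real.sin b - Real.sin a) - (R ^ 2 + 1) * (b - a)) ≤
      ∫ t in a..b, psiS (sq R t) := by
  rw [← int_aff]
  refine intervalIntegral.integral_mono_on hab ?_ (integrable h0 h1 ha hab hb) ?_
  · refine Continuous.intervalIntegrable ?_ a b
    unfold aff sq
    fun_prop
  · intro t _
    exact Spec.aff_le_psiS hx (sq_pos h0 h1 t)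

/-- numerical lower bound for one piece -/
lemma num_piece {R a b x l e sb sa : ℝ} (h0 : 0 < R) (h1 : R < 1) (ha : 0 ≤ a) (hab : a ≤ b)
    (hb : b ≤ Real.pi) (hx : 0 ≤ x) (hx1 : x ≤ 1)
    (hl : 0 ≤ l) (hl' : 1 + x ≤ ∑ m ∈ Finset.range 10, l ^ m / (m.factorial : ℝ))
    (he : ∑ m ∈ Finset.range 10, x ^ m / (m.factorial : ℝ) +
      x ^ 10 * (10 + 1) / ((Nat.factorial 10 : ℝ) * 10) ≤ e)
    (hsb : sb ≤ b - b ^ 3 / 6 + b ^ 5 / 120 - b ^ 7 / 5040)
    (hsa : a - a ^ 3 / 6 + a ^ 5 / 120 ≤ sa) (hs : sb - sa ≤ b - a) :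
    (x - l + x / (2 * (1 + x))) * (b - a) +
        x / (2 * (1 + x)) * e ^ 2 * (2 * R * (sb - sa) - (R ^ 2 + 1) * (b - a)) ≤
      ∫ t in a..b, psiS (sq R t) := by
  refine le_trans ?_ (piece h0 h1 ha hab hb hx)
  have hlog : Real.log (1 + x) ≤ l := log_le (by linarith) hl hl'
  have hexp : Real.exp x ≤ e := exp_le hx hx1 he
  have hexp2 : Real.exp (2 * x) ≤ e ^ 2 := by
    have h2 : Real.exp (2 * x) = Real.exp x ^ 2 := by
      rw [← Real.exp_nat_mul]
      norm_num
    rw [h2]
    exact pow_le_pow_left₀ (Real.exp_pos x).le hexp 2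
  have hsb' : sb ≤ Real.sin b := hsb.trans (sin_ge7 (ha.trans hab))
  have hsa' : Real.sin a ≤ sa := (sin_le5 ha).trans hsa
  have hk : 0 ≤ x / (2 * (1 + x)) := by positivity
  have hneg : 2 * R * (sb - sa) - (R ^ 2 + 1) * (b - a) ≤ 0 := by
    have h3 : 2 * R * (sb - sa) ≤ 2 * R * (b - a) := mul_le_mul_of_nonneg_left hs (by linarith)
    have h4 : 0 ≤ (R - 1) ^ 2 * (b - a) := mul_nonneg (sq_nonneg _) (by linarith)
    nlinarith
  have h5 : 2 * R * (sb - sa) - (R ^ 2 + 1) * (b - a) ≤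
      2 * R * (Real.sin b - Real.sin a) - (R ^ 2 + 1) * (b - a) := by
    have : 2 * R * (sb - sa) ≤ 2 * R * (Real.sin b - Real.sin a) :=
      mul_le_mul_of_nonneg_left (by linarith) (by linarith)
    linarith
  have h6 : x / (2 * (1 + x)) * e ^ 2 * (2 * R * (sb - sa) - (R ^ 2 + 1) * (b - a)) ≤
      x / (2 * (1 + x)) * Real.exp (2 * x) * (2 * R * (sb - sa) - (R ^ 2 + 1) * (b - a)) := by
    have h7 : x / (2 * (1 + x)) * Real.exp (2 * x) ≤ x / (2 * (1 + x)) * e ^ 2 :=
      mul_le_mul_of_nonneg_left hexp2 hk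
    exact mul_le_mul_of_nonpos_right h7 hneg
  have h8 : x / (2 * (1 + x)) * Real.exp (2 * x) *
        (2 * R * (sb - sa) - (R ^ 2 + 1) * (b - a)) ≤
      x / (2 * (1 + x)) * Real.exp (2 * x) *
        (2 * R * (Real.sin b - Real.sin a) - (R ^ 2 + 1) * (b - a)) :=
    mul_le_mul_of_nonneg_left h5 (mul_nonneg hk (Real.exp_pos _).le)
  have h9 : (x - l + x / (2 * (1 + x))) * (b - a) ≤
      (x - Real.log (1 + x) + x / (2 * (1 + x))) * (b - a) :=
    mul_le_mul_of_nonneg_right (by linarith) (by linarith)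
  linarith

lemma pi_gt : (3.14159 : ℝ) < Real.pi := by
  have := Real.pi_gt_d6
  linarith

theorem numB {R ℓ : ℝ} (hR : 0.5997 ≤ R) (hR' : R ≤ 0.6) (hℓ : ℓ = 2 * Real.arccos 0.08) :
    2 * Real.pi * 0.0980 ≤
      4 * (∫ t in (0 : ℝ)..(ℓ / 2), psiS (R ^ 2 + 1 - 2 * R * Real.cos t)) +
      2 * (∫ t in (0 : ℝ)..(Real.pi - ℓ), psiS (R ^ 2 + 1 - 2 * R * Real.cos t)) := by
  have h0 : 0 < R := by linarith
  have h1 : R < 1 := by linarith
  have hpi := pi_gt
  have hnn : ∀ t, 0 ≤ psiS (sq R t) := fun t => Spec.psiS_nonneg _ (sq_pos h0 h1 t)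
  have hl2 : ℓ / 2 = Real.arccos 0.08 := by rw [hℓ]; ring
  -- the first upper limit
  have hA : (1.15 : ℝ) ≤ ℓ / 2 := by
    rw [hl2]
    have h2 : Real.arccos (Real.cos 1.15) = 1.15 :=
      Real.arccos_cos (by norm_num) (by linarith)
    rw [← h2]
    refine Real.arccos_le_arccos ?_
    refine le_trans ?_ (Real.one_sub_sq_div_two_le_cos)
    norm_num
  have hA' : ℓ / 2 ≤ Real.pi := by rw [hl2]; exact Real.arccos_le_pi _
  -- the second upper limit
  have hB : (0.16 : ℝ) ≤ Real.pi - ℓ := by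
    have h2 : Real.arccos 0.08 = Real.pi / 2 - Real.arcsin 0.08 := rfl
    have h3 : (0.08 : ℝ) ≤ Real.arcsin 0.08 := by
      rw [Real.le_arcsin_iff_sin_le ⟨by linarith, by linarith⟩ ⟨by norm_num, by norm_num⟩]
      exact Real.sin_le (by norm_num)
    rw [hℓ, h2]
    linarith
  have hB' : Real.pi - ℓ ≤ Real.pi := by
    have : 0 ≤ ℓ / 2 := by linarith
    linarith
  have e1 : ∫ t in (0 : ℝ)..(1.15), psiS (sq R t) ≤ ∫ t in (0 : ℝ)..(ℓ / 2), psiS (sq R t) := by
    rw [← intervalIntegral.integral_add_adjacent_intervals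
      (integrable h0 h1 le_rfl (by norm_num) (by linarith) : IntervalIntegrable
        (fun t => psiS (sq R t)) volume 0 1.15) (integrable h0 h1 (by norm_num) hA hA')]
    have := intervalIntegral.integral_nonneg (μ := volume) hA (fun t _ => hnn t)
    linarith
  have e2 : ∫ t in (0 : ℝ)..(0.16), psiS (sq R t) ≤
      ∫ t in (0 : ℝ)..(Real.pi - ℓ), psiS (sq R t) := by
    rw [← intervalIntegral.integral_add_adjacent_intervals
      (integrable h0 h1 le_rfl (by norm_num) (by linarith) : IntervalIntegrable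
        (fun t => psiS (sq R t)) volume 0 0.16) (integrable h0 h1 (by norm_num) hB hB')]
    have := intervalIntegral.integral_nonneg (μ := volume) hB (fun t _ => hnn t)
    linarith
  have e3 : ∫ t in (0 : ℝ)..(1.15), psiS (sq R t) =
      (∫ t in (0 : ℝ)..(0.25), psiS (sq R t)) + (∫ t in (0.25 : ℝ)..(0.45), psiS (sq R t)) +
      (∫ t in (0.45 : ℝ)..(0.6), psiS (sq R t)) + (∫ t in (0.6 : ℝ)..(0.75), psiS (sq R t)) +
      (∫ t in (0.75 : ℝ)..(0.95), psiS (sq R t)) +
      (∫ t in (0.95 : ℝ)..(1.15), psiS (sq R t)) := by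
    have I : ∀ a b : ℝ, 0 ≤ a → a ≤ b → b ≤ 1.15 →
        IntervalIntegrable (fun t => psiS (sq R t)) volume a b := fun a b ha hab hb =>
      integrable h0 h1 ha hab (by linarith)
    rw [intervalIntegral.integral_add_adjacent_intervals (I _ _ (by norm_num) (by norm_num)
        (by norm_num)) (I _ _ (by norm_num) (by norm_num) (by norm_num)),
      intervalIntegral.integral_add_adjacent_intervals (I _ _ (by norm_num) (by norm_num)
        (by norm_num)) (I _ _ (by norm_num) (by norm_num) (by norm_num)),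
      intervalIntegral.integral_add_adjacent_intervals (I _ _ (by norm_num) (by norm_num)
        (by norm_num)) (I _ _ (by norm_num) (by norm_num) (by norm_num)),
      intervalIntegral.integral_add_adjacent_intervals (I _ _ (by norm_num) (by norm_num)
        (by norm_num)) (I _ _ (by norm_num) (by norm_num) (by norm_num)),
      intervalIntegral.integral_add_adjacent_intervals (I _ _ (by norm_num) (by norm_num)
        (by norm_num)) (I _ _ (by norm_num) (by norm_num) (by norm_num))]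
  have p1 := num_piece (R := R) (a := 0) (b := 0.25) (x := 0.88) (l := 0.631273)
    (e := 2.410901) (sb := 0.247403) (sa := 0) h0 h1 le_rfl (by norm_num) (by linarith)
    (by norm_num) (by norm_num) (by norm_num) (by norm_num [Finset.sum_range_succ, Nat.factorial])
    (by norm_num [Finset.sum_range_succ, Nat.factorial]) (by norm_num) (by norm_num) (by norm_num)
  have p2 := num_piece (R := R) (a := 0.25) (b := 0.45) (x := 0.72) (l := 0.542326)
    (e := 2.054435) (sb := 0.434965) (sa := 0.247404) h0 h1 (by norm_num) (by norm_num)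
    (by linarith) (by norm_num) (by norm_num) (by norm_num)
    (by norm_num [Finset.sum_range_succ, Nat.factorial])
    (by norm_num [Finset.sum_range_succ, Nat.factorial]) (by norm_num) (by norm_num) (by norm_num)
  have p3 := num_piece (R := R) (a := 0.45) (b := 0.6) (x := 0.56) (l := 0.444687)
    (e := 1.750674) (sb := 0.564642) (sa := 0.434967) h0 h1 (by norm_num) (by norm_num)
    (by linarith) (by norm_num) (by norm_num) (by norm_num)
    (by norm_num [Finset.sum_range_succ, Nat.factorial])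
    (by norm_num [Finset.sum_range_succ, Nat.factorial]) (by norm_num) (by norm_num) (by norm_num)
  have p4 := num_piece (R := R) (a := 0.6) (b := 0.75) (x := 0.42) (l := 0.350658)
    (e := 1.521963) (sb := 0.681638) (sa := 0.564648) h0 h1 (by norm_num) (by norm_num)
    (by linarith) (by norm_num) (by norm_num) (by norm_num)
    (by norm_num [Finset.sum_range_succ, Nat.factorial])
    (by norm_num [Finset.sum_range_succ, Nat.factorial]) (by norm_num) (by norm_num) (by norm_num)
  have p5 := num_piece (R := R) (a := 0.75) (b := 0.95) (x := 0.28) (l := 0.246862)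
    (e := 1.323131) (sb := 0.813413) (sa := 0.681666) h0 h1 (by norm_num) (by norm_num)
    (by linarith) (by norm_num) (by norm_num) (by norm_num)
    (by norm_num [Finset.sum_range_succ, Nat.factorial])
    (by norm_num [Finset.sum_range_succ, Nat.factorial]) (by norm_num) (by norm_num) (by norm_num)
  have p6 := num_piece (R := R) (a := 0.95) (b := 1.15) (x := 0.14) (l := 0.13103)
    (e := 1.150275) (sb := 0.912754) (sa := 0.813553) h0 h1 (by norm_num) (by norm_num)
    (by linarith) (by norm_num) (by norm_num) (by norm_num)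
    (by norm_num [Finset.sum_range_succ, Nat.factorial])
    (by norm_num [Finset.sum_range_succ, Nat.factorial]) (by norm_num) (by norm_num) (by norm_num)
  have p7 := num_piece (R := R) (a := 0) (b := 0.16) (x := 0.9) (l := 0.641855)
    (e := 2.459605) (sb := 0.159318) (sa := 0) h0 h1 le_rfl (by norm_num) (by linarith)
    (by norm_num) (by norm_num) (by norm_num) (by norm_num [Finset.sum_range_succ, Nat.factorial])
    (by norm_num [Finset.sum_range_succ, Nat.factorial]) (by norm_num) (by norm_num) (by norm_num)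
  have hRR : R ^ 2 ≤ 1.1997 * R - 0.35982 := by nlinarith
  have hpi2 : Real.pi ≤ 3.141593 := Real.pi_lt_d6.le
  change 2 * Real.pi * 0.0980 ≤ 4 * (∫ t in (0 : ℝ)..(ℓ / 2), psiS (sq R t)) +
      2 * (∫ t in (0 : ℝ)..(Real.pi - ℓ), psiS (sq R t))
  generalize hI1 : ∫ t in (0 : ℝ)..(0.25), psiS (sq R t) = I1 at *
  generalize hI2 : ∫ t in (0.25 : ℝ)..(0.45), psiS (sq R t) = I2 at *
  generalize hI3 : ∫ t in (0.45 : ℝ)..(0.6), psiS (sq R t) = I3 at *
  generalize hI4 : ∫ t in (0.6 : ℝ)..(0.75), psiS (sq R t) = I4 at *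
  generalize hI5 : ∫ t in (0.75 : ℝ)..(0.95), psiS (sq R t) = I5 at *
  generalize hI6 : ∫ t in (0.95 : ℝ)..(1.15), psiS (sq R t) = I6 at *
  generalize hI7 : ∫ t in (0 : ℝ)..(0.16), psiS (sq R t) = I7 at *
  norm_num at p1 p2 p3 p4 p5 p6 p7
  linarith

end Pool.Agent.Helper91.LC.R43NumB

namespace Pool.Agent.Helper91.LC.Spec

alias numB := Pool.Agent.Helper91.LC.R43NumB.numB

end Pool.Agent.Helper91.LC.Spec
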